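import Pool.Agent.H313.GE.Tw2

/-!
# The average order of the eigenvalue one for the twists of a cyclic covering, over all finite extensions

Let `k` be a field with `q` elements, `Z` the subset of projective space over `k` where the forms `G i`
vanish, assumed to be smooth, geometrically connected, of pure dimension `2 e`. Let `ℓ` be a prime,
`N = ℓ ^ a > 1` a divisor of `q - 1`, and `F` a form whose degree is positive and divisible by `N` such
that the subset `B` of `Z` where `F` vanishes is a smooth divisor. For a finite extension `k'` of `k`
and `v` in the unit group of `k'` let `X_v : w ^ N = v F` be the cyclic covering of `Z` over `k'` which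
is branched along `B`, a smooth projective variety. These are the twists of `X_1`.

For a character `ψ ≠ 1` of `k` whose order divides `N` the cohomology with compact support of `Z - B`
with coefficients in the Kummer sheaf of `ψ` for `F` is concentrated in the degree `2 e`, and
`charProduct G F ψ`, the inverse of its `L`-function, is the polynomial `det (1 - T Frob)`. Let `V j` be
this polynomial for `ψ = χ ^ j`, for a character `χ` of order `N`. Over the extension `k'` of degree
`r` the sheaf of the character `χ ^ j` composed with the norm, for `v F`, has the reciprocal zeros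
`χ ^ j (N v) α ^ r`, where `α` runs through the reciprocal zeros of `V j`.

Let `Y` be any smooth projective variety over `k`, `i` an even number, and `R` the characteristic
polynomial of Frobenius on `H ^ i (Y)`, of which the zeros `b ∈ S` are in the ring of integers of the
number field `K`, a Galois extension of the rational numbers. The products of the `b ∈ S` with the
reciprocal zeros of `V j` are the reciprocal zeros of the product `V_S j` of the polynomials `V j (b T)`
(`IsTensorOver`). So the cohomology of degree `2 c = 2 e + i` of `Y × X_v` over `k'` with the Tate twist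
by `c` is the sum of that of `Y × Z` and of a space on which the eigenvalue one of the Frobenius has the
multiplicity `twistOrder χ V_S N c v`.
-/

set_option autoImplicit false
set_option linter.all false
set_option maxHeartbeats 4000000

open Polynomial NumberField

namespace Pool.Agent.Results.MP_81632f_ag.AverageOverTwists

open Pool.Agent.H313.GE.Pts

/-- `W(T)` is the product of the polynomials `V(b T)` for `b` in the multiset `S`. -/
def IsTensorOver {A : Type} [CommRing A] (S : Multiset A) (V W : A[X]) : Prop :=
  W = (S.map fun b => V.comp (C b * X)).prod

/-- **The average of the multiplicities of the eigenvalue one, over all finite extensions.**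

The quotient of the zeta functions of `B` and `Z` is `L₁ / L₂`, with polynomials over the integers. Let
`W₁`, `W₂` be the tensor products of `L₁`, `L₂` with `S`, let `W₁ / W₂` be congruent modulo `ℓ` to the
product of the cyclotomic polynomials `Φ_m` for `m` in a multiset `t` and of a polynomial `H` which no
`Φ_m` with `m` prime to `ℓ` divides modulo `ℓ`, and let `μ` be the sum of the `φ(m)` for `m` in `t`.
Then for every finite extension `k'` of `k` and every `c` the average of `twistOrder χ V_S N c v` over
the `v` in the unit group of `k'` is at most `a (1 - 1 / ℓ) μ`, a bound which does not depend on `k'`.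

Consequence. Let `ord X` be the multiplicity of the eigenvalue one on the cohomology of degree `2 c`
with the Tate twist by `c`. For every finite extension `k'` of `k` the average over the twists `X_v`
over `k'` of `ord (Y × X_v)` is at most `ord (Y × Z)` plus `a (1 - 1 / ℓ) μ`. If the surjectivity in Q1
and the semisimplicity in Q2 hold in codimension `c` for `Y × Z` over `k'`, then they hold for `Y × X_v`
up to a space (the cokernel of the map of cycle classes in the generalised eigenspace) whose dimension
is on the average at most `a (1 - 1 / ℓ) μ`; for instance, if `μ = 0`, they hold for `Y × X_v` for every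
`v` and every `k'` for which they hold for `Y × Z`. -/
theorem result (ℓ a : ℕ) (hℓ : ℓ.Prime) (ha : a ≠ 0) (k : Type) [Field k] [Finite k]
    (K : Type) [Field K] [NumberField K] [IsGalois ℚ K]
    (χ : MulChar k (𝓞 K)) (hχ : orderOf χ = ℓ ^ a)
    (R : ℤ[X]) (S : Multiset (𝓞 K)) (hR : R.map (algebraMap ℤ (𝓞 K)) = (S.map fun b => X - C b).prod)
    (M s : ℕ) (G : Fin s → MvPolynomial (Fin (M + 1)) k) (F : MvPolynomial (Fin (M + 1)) k)
    (L₁ L₂ : ℤ[X]) (hL : IsZetaQuotient G F L₁ L₂)
    (W₁ W₂ : ℤ[X]) (hW₁ : IsTensor S L₁ W₁) (hW₂ : IsTensor S L₂ W₂)
    (V VS : ℕ → (𝓞 K)[X]) (hV : ∀ j ∈ Finset.Ico 1 (ℓ ^ a),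
      charProduct G F (χ ^ j) = (V j : PowerSeries (𝓞 K)))
    (hVS : ∀ j, IsTensorOver S (V j) (VS j))
    (t : Multiset ℕ) (H : (ZMod ℓ)[X]) (h : Splits ℓ W₁ W₂ t H) (hH : NoCyclotomic ℓ H) (c : ℕ)
    (k' : Type) [Field k'] [Finite k'] [Algebra k k'] :
    ℓ * ∑ᶠ v : k'ˣ, twistOrder χ VS (ℓ ^ a) c v ≤
      (Nat.card k' - 1) * (a * (ℓ - 1) * (t.map Nat.totient).sum) := by
  have h1 : VS = fun j => Pool.Agent.H313.CC.tn S (V j) := funext fun j => hVS j
  rw [h1]
  exact Pool.Agent.H313.GE.average ℓ a hℓ ha K χ hχ S (Pool.Agent.H313.CC.stable hR) G F L₁ L₂ hL
    W₁ W₂ hW₁ hW₂ V hV t H h hH c k'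

end Pool.Agent.Results.MP_81632f_ag.AverageOverTwists
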