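import Pool.Agent.Y137.GN.Main
import Pool.Agent.X303.RegDefs

/-!
# The conjectures of Beilinson and Tate (semisimplicity) for the smooth varieties generated by
abelian varieties of dimension at most five and by products of elliptic curves and abelian surfaces

Over an algebraic closure of the field with `p` elements each abelian variety is isogenous to the
reduction of an abelian variety of CM type (Honda, Tate). So an abelian variety over the field with
`p ^ a` elements is modelled by `RedAV`: a finite product of CM types `(E i, Φ i)` with Weil numbers
`π i ∈ E i` that satisfy the formula of Shimura and Taniyama; its cohomology of degree `n`, with
coefficients in an algebraically closed field `Ω`, consists of the alternating `n`-forms on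
`Ω ⊗ H_1`, on which the Frobenius endomorphism acts by `π`.

We consider (`IsGoodAVS`) the following abelian varieties `Y`, with any Newton polygons.

* **All abelian varieties of dimension at most five.**
* All abelian varieties that are isogenous, over an algebraic closure, to a product of a supersingular
  abelian variety (of any dimension) and of powers of abelian varieties of dimension at most three, where
  any two of these which have dimension three, are not supersingular and whose CM fields have the same
  Galois closure, are isogenous, unless these fields are Galois over `ℚ`. So `Y` may be **any product of
  elliptic curves and abelian surfaces**.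

`Homology Ω V` are data of motivic homology `M X i j = H_i^M(X, ℚ(j))` (higher Chow groups) and of
`ℓ`-adic homology `E X i j = H_i(X, ℚ_ℓ(j))` (coefficients extended to `Ω`) of schemes `X` over a
finite field, with the Frobenius and the regulator. The class `Generated` contains the schemes with the
homology groups of the abelian varieties above (`IsGoodAbelianS`), it contains the schemes whose motives
are direct summands of finite sums of twists of motives of members, and it contains all of `Z`, `X`,
`U = X ∖ Z` if it contains two of them. For instance it contains all products of curves of genus at
most two, their symmetric powers, the Hilbert schemes of points on products of two such curves and on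
abelian and Kummer surfaces, projective and flag bundles over such varieties, blow-ups, and so on.

The theorem: let `X` be a smooth variety of pure dimension `d` of this class (the theorem is true for all
members), projective or not. For all `i` the cycle class map
`c^i : CH^i(X) ⊗ Ω → H^(2 i)(X, ℚ_ℓ(i)) ⊗ Ω` is bijective onto the space of the Frobenius invariant
elements, and the eigenvalue one of the Frobenius on `H^(2 i)(X, ℚ_ℓ(i))` is semisimple: the statement
`B^i(X)` is true. Here `CH^i(X) ⊗ ℚ = H_(2 (d - i))^M(X, ℚ(d - i)) = M X (2 (d - i)) (d - i)`, and the
same for `ℓ`-adic cohomology.

Properties of the theory of cycles that are used for the abelian varieties `Y` (`IsChowS`,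
`IsMotivic`): Poincaré duality, the formal properties of correspondences, the nilpotence of
homologically trivial correspondences (Kimura), the operation of the Frobenius endomorphism on higher
Chow groups, the vanishing of the higher rational `K`-groups of a finite field (Quillen), and the
algebraicity of the classes in `AlgS` (theorems of Tate, Markman and Ramón Marí). The Tate conjecture
for the abelian varieties `Y` (all Tate classes belong to `AlgS`) is proved in the starting files. The
passage from the Tate conjecture to all degrees is due to Soulé, Geisser, Kahn and Jannsen.
-/

set_option autoImplicit false

namespace Pool.Agent.Results.MP_81632f_ag.FiveAndSurfaces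

open Pool.Agent.W495.TA Pool.Agent.W495.FM Pool.Agent.Y137.GN Pool.Agent.X303.TBDual

/-- The conjecture `B^i(X)` for all `i` and all smooth `X` of pure dimension `d` of the class
generated by the abelian varieties `IsGoodAVS`. -/
theorem result (p : ℕ) [Fact p.Prime] (ν : PadicAlgCl p ≃+* ℂ) (Ω : Type) [Field Ω]
    [IsAlgClosed Ω] [CharZero Ω] (V : Type) (T : Homology Ω V) (hT : IsHomology T) (X : V) (hX :
    Generated T (IsGoodAbelianS p ν T) X) (d i : ℤ) :
    RegInjective T X (2 * (d - i)) (d - i) ∧ RegSurjective T X (2 * (d - i)) (d - i) ∧
    FrobSemisimple T X (2 * (d - i)) (d - i) :=
  ⟨(tb_goodS hT hX _ _).2.1, (tb_goodS hT hX _ _).1, (tb_goodS hT hX _ _).2.2⟩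

end Pool.Agent.Results.MP_81632f_ag.FiveAndSurfaces
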