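import Pool.Agent.X312.FK.Ord

/-!
# A gap law for the order of vanishing of the zeta function of `Y × X ^ n`

Let `k` be a finite field, `X` a smooth projective geometrically irreducible variety over `k` such
that `ℓ`-adic homological and numerical equivalence agree on its powers (known for abelian
varieties and products of curves and suitable `ℓ` by Clozel), and `Y` **any smooth variety** over
`k`, not necessarily projective. For `Z` a power of `X` let `H(Z) = ⊕_i H^(2 i)(Y × Z, ℚ_ℓ(i))`
(cohomology over the algebraic closure of `k`), let `F` be the Frobenius on `H(Z)`, and `A(Z)` the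
sum of the images of the maps `c^i : CH^i(Y × Z) ⊗ ℚ_ℓ → H(Z)`. Let `ρ(Z)` be the rank of the
cycles of all codimensions on `Z` modulo numerical equivalence, and `b` the sum of the Betti
numbers of `X`. For all `m ≥ 1`:

**the maps** `c^i` **are surjective and the eigenvalue one of** `F` **is semisimple for** `Y × X ^
m` **and all** `i`, **or for all** `n ≥ 1`

`ord_(t = 1) det (1 - F t | H(X ^ n)) ≥ dim A(X ^ n) + (1 - 4 (m + 3) b ^ (m + 5) log (n + 1) / n)
ρ(X ^ n)`.

So for fixed `X` and `Y` the surjectivity part of Q1 and Q2 together for all the varieties `Y × X
^ m` are equivalent to the statement that for each `m` the difference between the order and the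
dimension of the space of the classes of cycles on `Y × X ^ n` is smaller than `(1 - ε_n) ρ(X ^
n)` for one `n`, where `ε_n = 4 (m + 3) b ^ (m + 5) log (n + 1) / n` tends to zero; the formula
`dim CH^i = ord` of the problem says that it is zero.

The proof. For `Z` a power of `X` the algebraic correspondences act on the spaces `A(Z)` of
classes of cycles and `T(Z)` of the generalized eigenvectors of `F` for the eigenvalue one. If
`A(P) ≠ T(P)` for `P = X ^ m`, one takes an idempotent algebraic correspondence `g` on `P` of
minimal rank with `g T(P) ⊄ A(P)` and an element `z` of `g T(P)` which is not in `A(P)`. The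
correspondences `x` with `x z ∈ A(P)` have a nilpotent compression `g x g`, so the trace of `g x`
vanishes, and so `dim T(Z) / A(Z)` is at least the rank of the trace form `(u, v) ↦ tr (g v u)` on
the correspondences between `P` and `Z`; for `Z = X ^ n` this rank is compared with `ρ(X ^ n)` by
the log-convexity of the sequence of the ranks of the intersection forms and by the symmetric
group.
-/

set_option autoImplicit false

open CategoryTheory AlgebraicGeometry

universe u v w

namespace Pool.Agent.Results.MP_81632f_ag.FunctorGapLaw

open Pool.Agent.H914 VarClass Obj WeilCohomology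
open Pool.Agent.X312.FK (HomData Operators gapBound)
open Pool.Agent.Y133.Half (pw cycRank)

variable {k : Type u} [Field k] {𝒱 : VarClass k} {ops : CycleOps 𝒱}
  {W : WeilCohomology.{u, v} ops}

/-- The sum of the Betti numbers of `X`. -/
noncomputable def totalBetti (W : WeilCohomology.{u, v} ops) (X : 𝒱.Obj) : ℕ :=
  Module.finrank W.K (W.H X)

/-- **The gap law for the order of vanishing.** Here `T.M Z` is in the intended use
`⊕_i H^(2 i)(Y × Z, ℚ_ℓ(i))`, on which the correspondences between smooth projective varieties act,
`f` is the Frobenius, `A Z` is the sum of the images of the cycle class maps, and `pw X m` is the product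
of `m + 1` copies of `X`. -/
theorem result (T : HomData W) (hT : T.IsFunctor) (f : Operators T) (hf : f.Commutes)
    (A : ∀ Z : 𝒱.Obj, Submodule W.K (T.M Z)) (hA : T.IsStable A)
    (hfix : ∀ (Z : 𝒱.Obj) (x : T.M Z), x ∈ A Z → f.ap x = x) (X : 𝒱.Obj)
    (hD : ∀ n : ℕ, HomEqNum W (pw X n)) (m : ℕ) :
    -- all invariant classes are algebraic and the eigenvalue one is semisimple
    ((∀ x : T.M (pw X m), f.ap x = x → x ∈ A (pw X m)) ∧ f.Semisimple (pw X m)) ∨
    ∀ n : ℕ, T.dim A (pw X n) + gapBound (totalBetti W X) (cycRank ops (pw X n)) m n ≤
      f.order (pw X n) :=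
  Pool.Agent.X312.FK.order_law hT hf hA hfix X hD m

end Pool.Agent.Results.MP_81632f_ag.FunctorGapLaw
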